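import Pool.Agent.H9.GT.Main

/-!
# Automorphisms of the free profinite group of the form `x ↦ x ^ μ, y ↦ f⁻¹ y ^ μ f` act on the
`j`-invariants of the curves with radical `λ` as Galois conjugation

Definitions are in `Pool.Agent.H9.GT.Defs`.
-/

set_option autoImplicit false

open Polynomial Set

namespace Pool.Agent.Results.MP_1530fa_nt.RadicalLambda

open Pool.Agent.H9.GT

/-- Let `F = (μ, f)` be such that `x ↦ x ^ μ`, `y ↦ f⁻¹ y ^ μ f` is an automorphism of the free
profinite group on two generators (for instance an element of the Grothendieck-Teichmueller group).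
Let `l ≠ 0, 1` be an algebraic number with minimal polynomial `(X - h) ^ k - D` over `ℚ`, where
`h = 0` or `h = 1` or (`h = 1/2` and `k` is even); for instance any rational number. The algorithm of
Belyi for the function `x` on `E_l : y² = x (x - 1) (x - l)` uses the minimal polynomial of `l`,
which leaves the three rational points `P(0), P(1), 0, -D`, and then a last step `T`. Such a last
step exists, and for each choice `T` of it there is a Galois conjugate `l'` of `l` such that `F`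
maps the dessin of the function `B(x)`, `B = T ∘ P`, on `E_l` to the dessin of `B(x)` on `E_l'`. The
`j`-invariants of the two curves are conjugate over `ℚ`, and equal if `j(E_l)` is rational. -/
theorem result (F : GPair) (hF : F.IsAut) {l : ℂ} (hl0 : l ≠ 0) (hl1 : l ≠ 1) {k : ℕ}
    (hk : 0 < k) {h D : ℚ} (hh : h = 0 ∨ h = 1 ∨ (h = 1 / 2 ∧ Even k))
    (hmin : minpoly ℚ l = (X - C h) ^ k - C D) :
    (∃ T, LastStep {(minpoly ℚ l).eval 0, (minpoly ℚ l).eval 1, 0, -D} T) ∧
    ∀ T, LastStep {(minpoly ℚ l).eval 0, (minpoly ℚ l).eval 1, 0, -D} T →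
      (∃ (Ω : Type) (_ : Finite Ω) (σ₀ σ₁ : Equiv.Perm Ω),
        IsDessin ((T.comp (minpoly ℚ l)).map (algebraMap ℚ ℂ)) l Ω σ₀ σ₁) ∧
      ∃ l' : ℂ, minpoly ℚ l' = minpoly ℚ l ∧ minpoly ℚ (jInv l') = minpoly ℚ (jInv l) ∧
        (∀ q : ℚ, jInv l = q → jInv l' = q) ∧
        ∀ (Ω : Type) [Finite Ω] (σ₀ σ₁ : Equiv.Perm Ω),
          IsDessin ((T.comp (minpoly ℚ l)).map (algebraMap ℚ ℂ)) l Ω σ₀ σ₁ →
          IsDessin ((T.comp (minpoly ℚ l)).map (algebraMap ℚ ℂ)) l' Ω (F.X σ₀ σ₁)
            (F.Y σ₀ σ₁) := by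
  obtain ⟨p, q, r, h1, h2, h3, h4⟩ := stage_two hl0 hl1 hk hh hmin
  refine ⟨?_, ?_⟩
  · rw [h4]
    exact lastStep_exists h1 h2 h3
  · intro T hT
    obtain ⟨hA, l', hm, hj, hd⟩ := main F hF hl0 hl1 hk hh hmin T hT
    refine ⟨hA, l', hm, hj, ?_, hd⟩
    intro q hq
    rw [hq] at hj
    have h5 : minpoly ℚ ((algebraMap ℚ ℂ) q) = X - C q := minpoly.eq_X_sub_C ℂ q
    rw [eq_ratCast] at h5
    rw [h5] at hj
    have h6 := minpoly.aeval ℚ (jInv l')
    rw [hj] at h6
    simp only [map_sub, aeval_X, aeval_C, eq_ratCast] at h6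
    exact sub_eq_zero.1 h6

end Pool.Agent.Results.MP_1530fa_nt.RadicalLambda
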